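import Pool.Agent.LE.StmtsC
import Pool.Agent.Helper59_LE.Gev3
import Pool.Agent.Helper96_EXP.One

/-!
# GVU: the good event, uniformly in the parameters
-/

set_option autoImplicit false

open MeasureTheory ProbabilityTheory Function Filter

open scoped ENNReal BigOperators

noncomputable section

namespace Pool.Agent.LE.H59C

open Pool.Agent.Anderson Pool.Agent.Loc Pool.Agent.Helper54.Bal Pool.Agent.LE.H96
  Pool.Agent.LE.H59

variable {d : ℕ}

/-- the parts 1, 2, 3 and 6 of `GoodU` -/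
def GuA (V : Site d → ℝ) (N Q ℓ : ℕ) (a : Site d) (E η : ℝ) : Prop :=
  (RM V (box 0 N) E).det ≠ 0 ∧
  (∀ x ∈ box a (12 * (Q * ℓ)), ∀ y ∈ box a (12 * (Q * ℓ)), gr V (box 0 N) E x y ≠ 0 ∧
    |gr V (box 0 N) E x y| ≤ Real.exp (η * (Q * ℓ))) ∧
  (∀ x ∈ box a (12 * (Q * ℓ)), ∀ u ∈ box a (12 * (Q * ℓ)), ∀ y ∈ box a (12 * (Q * ℓ)),
    DL (box 0 N) E V x y ≤ DL (box 0 N) E V x u + DL (box 0 N) E V u y + η * (Q * ℓ)) ∧
  (∀ r ≤ Q * ℓ, ∀ s ∈ box a (8 * (Q * ℓ)), (RM V (box s r) E).det ≠ 0 ∧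
    ∀ x y, |gr V (box s r) E x y| ≤ Real.exp (η * (Q * ℓ)))

theorem par_ne {B σ E : ℝ} (h : Par B σ E) : σ ≠ 0 := by
  intro h0
  have := h.2.2
  rw [h0, abs_zero, mul_zero] at this
  linarith

theorem par_inv {B σ E : ℝ} (h : Par B σ E) : 1 / |σ| ≤ B := by
  have h1 : 0 < |σ| := abs_pos.2 (par_ne h)
  rw [div_le_iff₀ h1]
  exact h.2.2

theorem guA (hufm : UfmStmt) (B η p : ℝ) (Q : ℕ) (hd : 1 ≤ d) (hB : 0 < B) (hη : 0 < η)
    (hp : 0 < p) (hQ : 1 ≤ Q) :
    ∃ l₀ : ℕ, ∀ ℓ : ℕ, l₀ ≤ ℓ → ∀ σ E : ℝ, Par B σ E → ∀ (N : ℕ) (a : Site d),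
      box a (12 * (Q * ℓ)) ⊆ box 0 N →
      PP d (gl σ) {V | ¬ GuA V N Q ℓ a E η} ≤ ENNReal.ofReal p := by
  classical
  obtain ⟨_, _, hF⟩ := hufm d B hd hB
  set K : ℝ := 14 * B with hK
  have hK0 : 0 ≤ K := by positivity
  have hsmall := poly_small (3 * d + 1) (μ := η / 3) (by positivity) 1 (12 ^ (3 * d + 1) * K)
    (q := p / 3) (by positivity)
  obtain ⟨L₀, hL₀⟩ := eventually_atTop.1 hsmall
  refine ⟨L₀, fun ℓ hℓ σ E hpar N a ha => ?_⟩
  have hσ := par_ne hpar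
  have hν := bddDens_gl hσ
  have hρB := par_inv hpar
  set ρ : ℝ := 1 / |σ| with hρd
  have hρ := hν.1
  have hρ0 : 0 ≤ ρ := by positivity
  have hC : OneTail d (gl σ) E (8 * ρ) := oneTail hν E
  obtain ⟨L, hL⟩ : ∃ L : ℕ, L = Q * ℓ := ⟨_, rfl⟩
  have hLr : (Q : ℝ) * ℓ = (L : ℝ) := by rw [hL]; push_cast; ring
  have hLL : L₀ ≤ L := by
    rw [hL]
    exact hℓ.trans (Nat.le_mul_of_pos_left _ hQ)
  have hnum := hL₀ L hLL
  have hLnn : (0 : ℝ) ≤ L := Nat.cast_nonneg L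
  have hnum' : (24 * (L : ℝ) + 1) ^ (3 * d + 1) * (K * Real.exp (-(η / 3) * L)) ≤ p / 3 := by
    refine le_trans ?_ hnum
    have h1 : (24 * (L : ℝ) + 1) ^ (3 * d + 1) ≤
        12 ^ (3 * d + 1) * (2 * (L : ℝ) + 1) ^ (3 * d + 1) := by
      rw [← mul_pow]
      apply pow_le_pow_left₀ (by positivity)
      linarith
    calc (24 * (L : ℝ) + 1) ^ (3 * d + 1) * (K * Real.exp (-(η / 3) * L))
        ≤ 12 ^ (3 * d + 1) * (2 * (L : ℝ) + 1) ^ (3 * d + 1) *
          (K * Real.exp (-(η / 3) * L)) := mul_le_mul_of_nonneg_right h1 (by positivity)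
      _ = 12 ^ (3 * d + 1) * K * (2 * (L : ℝ) + 1) ^ (3 * d + 1) *
          Real.exp (-(η / 3) * L) := by ring
  unfold GuA
  rw [← hL, hLr]
  set A := box a (12 * L) with hA
  rw [← hL] at ha
  set T : ℝ := Real.exp (η * L) with hT
  have hTpos : 0 < T := Real.exp_pos _
  have hTe : 6 * ρ / T ≤ K * Real.exp (-(η / 3) * L) := by
    rw [div_eq_mul_inv, hT, ← Real.exp_neg]
    apply mul_le_mul
    · rw [hK]
      linarith
    · rw [Real.exp_le_exp]
      have : 0 ≤ η * L := by positivity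
      linarith
    · positivity
    · positivity
  have hCe : 8 * ρ * Real.exp (-(η * L) / 3) ≤ K * Real.exp (-(η / 3) * L) := by
    rw [show -(η * (L : ℝ)) / 3 = -(η / 3) * L by ring]
    apply mul_le_mul_of_nonneg_right _ (Real.exp_pos _).le
    rw [hK]
    linarith
  have hcA : (A.card : ℝ) = (24 * L + 1) ^ d := by
    rw [hA, card_box]
    push_cast
    congr 1
    ring
  have hone' : (1 : ℝ) ≤ 24 * L + 1 := by linarith
  set q : ℝ := K * Real.exp (-(η / 3) * L) with hq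
  have hq0 : 0 ≤ q := by positivity
  set I : Finset (ℕ × Site d) := Finset.range (L + 1) ×ˢ box a (8 * L) with hI
  set M0 : Set (Site d → ℝ) := {V | (RM V (box 0 N) E).det = 0} with hM0
  set M1 : Set (Site d → ℝ) := ⋃ z ∈ A ×ˢ A, {V | gr V (box 0 N) E z.1 z.2 = 0} with hM1
  set M2 : Set (Site d → ℝ) := ⋃ z ∈ A ×ˢ A, {V | T < |gr V (box 0 N) E z.1 z.2|} with hM2
  set M3 : Set (Site d → ℝ) := ⋃ z ∈ A ×ˢ (A ×ˢ A),
    {V | Real.exp (η * L) * |gr V (box 0 N) E z.1 z.2.2| <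
      |gr V (box 0 N) E z.1 z.2.1| * |gr V (box 0 N) E z.2.1 z.2.2|} with hM3
  set M4 : Set (Site d → ℝ) := ⋃ i ∈ I, {V | (RM V (box i.2 i.1) E).det = 0} with hM4
  set M5 : Set (Site d → ℝ) := ⋃ i ∈ I, ⋃ z ∈ box i.2 i.1 ×ˢ box i.2 i.1,
    {V | T < |gr V (box i.2 i.1) E z.1 z.2|} with hM5
  have hnull : ∀ Λ : Finset (Site d), PP d (gl σ) {V | (RM V Λ E).det = 0} = 0 := by
    intro Λ
    have h1 : Pool.Agent.Mob.H75.Loc {V : Site d → ℝ | (RM V Λ E).det = 0} Λ := by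
      intro V V' h
      rw [Set.mem_ofPred_eq, Set.mem_ofPred_eq, RM_congr h]
    exact le_antisymm ((Pool.Agent.Mob.H75.PP_le_PL h1).trans (PL_det hν _ _ le_rfl E).le) zero_le
  have hweak : ∀ (Λ : Finset (Site d)) (x y : Site d),
      PP d (gl σ) {V | T < |gr V Λ E x y|} ≤ ENNReal.ofReal q := by
    intro Λ x y
    have h1 : Pool.Agent.Mob.H75.Loc {V : Site d → ℝ | T < |gr V Λ E x y|} Λ := by
      intro V V' h
      rw [Set.mem_ofPred_eq, Set.mem_ofPred_eq, gr_congr h]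
    exact ((Pool.Agent.Mob.H75.PP_le_PL h1).trans (PL_weak hν _ E x y hTpos)).trans
      (ENNReal.ofReal_le_ofReal hTe)
  have p0 : PP d (gl σ) M0 = 0 := hnull _
  have p1 : PP d (gl σ) M1 = 0 := by
    refine le_antisymm ((measure_biUnion_finset_le _ _).trans
      (le_of_eq (Finset.sum_eq_zero fun z hz => ?_))) zero_le
    have hz' := Finset.mem_product.1 hz
    exact (hF σ E hpar N).2 z.1 (ha hz'.1) z.2 (ha hz'.2)
  have p4 : PP d (gl σ) M4 = 0 := by
    exact le_antisymm ((measure_biUnion_finset_le _ _).trans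
      (le_of_eq (Finset.sum_eq_zero fun s _ => hnull _))) zero_le
  have p2 : PP d (gl σ) M2 ≤ ENNReal.ofReal (p / 3) := by
    apply union_le (q := q)
    · intro z _
      exact hweak _ _ _
    · refine le_trans ?_ hnum'
      apply mul_le_mul_of_nonneg_right _ hq0
      rw [Finset.card_product]
      push_cast
      rw [hcA, ← pow_add]
      exact pow_le_pow_right₀ hone' (by omega)
  have p3 : PP d (gl σ) M3 ≤ ENNReal.ofReal (p / 3) := by
    apply union_le (q := q)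
    · intro z hz
      rw [Finset.mem_product, Finset.mem_product] at hz
      have h1 : Pool.Agent.Mob.H75.Loc {V : Site d → ℝ |
          Real.exp (η * L) * |gr V (box 0 N) E z.1 z.2.2| <
            |gr V (box 0 N) E z.1 z.2.1| * |gr V (box 0 N) E z.2.1 z.2.2|} (box 0 N) := by
        intro V V' h
        rw [Set.mem_ofPred_eq, Set.mem_ofPred_eq, gr_congr h, gr_congr h, gr_congr h]
      refine (Pool.Agent.Mob.H75.PP_le_PL h1).trans ?_
      refine (hC (box 0 N) z.1 z.2.1 z.2.2 (η * L) (ha hz.1) (ha hz.2.1) (ha hz.2.2)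
        (by positivity)).trans ?_
      exact ENNReal.ofReal_le_ofReal hCe
    · refine le_trans ?_ hnum'
      apply mul_le_mul_of_nonneg_right _ hq0
      rw [Finset.card_product, Finset.card_product]
      push_cast
      rw [hcA, ← pow_add, ← pow_add]
      exact pow_le_pow_right₀ hone' (by omega)
  have p5 : PP d (gl σ) M5 ≤ ENNReal.ofReal (p / 3) := by
    apply union_le (q := (24 * L + 1) ^ (2 * d) * q)
    · intro i hi
      apply union_le (q := q)
      · intro z _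
        exact hweak _ _ _
      · apply mul_le_mul_of_nonneg_right _ hq0
        rw [Finset.card_product, card_box]
        push_cast
        rw [← pow_add, show d + d = 2 * d by ring]
        apply pow_le_pow_left₀ (by positivity)
        rw [hI, Finset.mem_product, Finset.mem_range] at hi
        have h3 : (i.1 : ℝ) ≤ L := by
          have : i.1 ≤ L := by omega
          exact_mod_cast this
        linarith
    · refine le_trans ?_ hnum'
      rw [← mul_assoc]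
      apply mul_le_mul_of_nonneg_right _ hq0
      rw [hI, Finset.card_product, Finset.card_range, card_box]
      push_cast
      calc ((L : ℝ) + 1) * (2 * (8 * (L : ℝ)) + 1) ^ d * (24 * (L : ℝ) + 1) ^ (2 * d)
          ≤ (24 * (L : ℝ) + 1) * (24 * (L : ℝ) + 1) ^ d * (24 * (L : ℝ) + 1) ^ (2 * d) := by
            apply mul_le_mul_of_nonneg_right _ (by positivity)
            apply mul_le_mul (by linarith) _ (by positivity) (by positivity)
            apply pow_le_pow_left₀ (by positivity)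
            linarith
        _ = (24 * (L : ℝ) + 1) ^ (3 * d + 1) := by
            rw [show 3 * d + 1 = 1 + d + 2 * d by ring, pow_add, pow_add, pow_one]
  have hincl : {V : Site d → ℝ | ¬ ((RM V (box 0 N) E).det ≠ 0 ∧
      (∀ x ∈ A, ∀ y ∈ A, gr V (box 0 N) E x y ≠ 0 ∧ |gr V (box 0 N) E x y| ≤ T) ∧
      (∀ x ∈ A, ∀ u ∈ A, ∀ y ∈ A,
        DL (box 0 N) E V x y ≤ DL (box 0 N) E V x u + DL (box 0 N) E V u y + η * L) ∧
      (∀ r ≤ L, ∀ s ∈ box a (8 * L), (RM V (box s r) E).det ≠ 0 ∧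
        ∀ x y, |gr V (box s r) E x y| ≤ T))} ⊆ (M0 ∪ M1 ∪ M4) ∪ (M2 ∪ (M3 ∪ M5)) := by
    intro V hV
    by_contra hcon
    simp only [Set.mem_union, not_or] at hcon
    obtain ⟨⟨⟨c0, c1⟩, c4⟩, c2, c3, c5⟩ := hcon
    apply hV
    have hg0 : ∀ x ∈ A, ∀ y ∈ A, gr V (box 0 N) E x y ≠ 0 := by
      intro x hx y hy h0
      apply c1
      rw [hM1]
      simp only [Set.mem_iUnion, exists_prop]
      exact ⟨(x, y), Finset.mem_product.2 ⟨hx, hy⟩, h0⟩
    refine ⟨c0, fun x hx y hy => ⟨hg0 x hx y hy, ?_⟩, ?_, ?_⟩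
    · by_contra h0
      rw [not_le] at h0
      apply c2
      rw [hM2]
      simp only [Set.mem_iUnion, exists_prop]
      exact ⟨(x, y), Finset.mem_product.2 ⟨hx, hy⟩, h0⟩
    · intro x hx u hu y hy
      apply dl_le (hg0 x hx y hy) (hg0 x hx u hu) (hg0 u hu y hy)
      by_contra h0
      rw [not_le] at h0
      apply c3
      rw [hM3]
      simp only [Set.mem_iUnion, exists_prop]
      exact ⟨(x, (u, y)), Finset.mem_product.2 ⟨hx, Finset.mem_product.2 ⟨hu, hy⟩⟩, h0⟩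
    · intro r hr s hs
      have hmem : (r, s) ∈ I := by
        rw [hI, Finset.mem_product, Finset.mem_range]
        exact ⟨by omega, hs⟩
      refine ⟨fun h0 => ?_, fun x y => ?_⟩
      · apply c4
        rw [hM4]
        simp only [Set.mem_iUnion, exists_prop]
        exact ⟨(r, s), hmem, h0⟩
      · by_cases hxy : x ∈ box s r ∧ y ∈ box s r
        · by_contra h0
          rw [not_le] at h0
          apply c5
          rw [hM5]
          simp only [Set.mem_iUnion, exists_prop]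
          exact ⟨(r, s), hmem, (x, y), Finset.mem_product.2 hxy, h0⟩
        · unfold gr
          rw [dif_neg hxy, abs_zero]
          exact hTpos.le
  refine (measure_mono hincl).trans ?_
  refine (measure_union_le _ _).trans ?_
  have hz : PP d (gl σ) (M0 ∪ M1 ∪ M4) = 0 := measure_union_null (measure_union_null p0 p1) p4
  rw [hz, zero_add]
  refine (measure_union_le _ _).trans ?_
  refine (add_le_add p2 ((measure_union_le _ _).trans (add_le_add p3 p5))).trans ?_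
  rw [← ENNReal.ofReal_add (by positivity) (by positivity),
    ← ENNReal.ofReal_add (by positivity) (by positivity)]
  apply ENNReal.ofReal_le_ofReal
  linarith

theorem measurable_mx {N n : ℕ} {E : ℝ} {c : Site d}
    (h : ∀ x y, Measurable fun V : Site d → ℝ => DL (box 0 N) E V x y) :
    Measurable fun V : Site d → ℝ => mx V N E c n := by
  classical
  unfold mx
  induction box c n using Finset.induction_on with
  | empty => simp only [Finset.sup_empty]; exact measurable_const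
  | insert s S _ ih =>
    simp only [Finset.sup_insert]
    exact (h c s).ennreal_ofReal.sup ih

theorem guB (huch : UchStmt) (hufm : UfmStmt) (B η : ℝ) (hd : 1 ≤ d) (hB : 0 < B)
    (hη : 0 < η) :
    ∃ C : ℝ, 0 < C ∧ ∀ Q : ℕ, 4 ≤ Q → ∀ ℓ : ℕ, 1 ≤ ℓ → ∀ σ E : ℝ, Par B σ E →
      ∀ (N : ℕ) (a : Site d), box a (12 * (Q * ℓ)) ⊆ box 0 N →
        PP d (gl σ) {V | ¬ GoodB V N Q ℓ a E η} ≤
          ENNReal.ofReal ((21 * (Q : ℝ)) ^ d * (C / Q) ^ (4 * d)) := by
  classical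
  obtain ⟨C, hC, hU⟩ := huch d (4 * d) B hd le_rfl hB
  obtain ⟨_, _, hF⟩ := hufm d B hd hB
  refine ⟨3 * C / η, by positivity, fun Q hQ4 ℓ hℓ σ E hpar N a ha => ?_⟩
  have hQr : (4 : ℝ) ≤ Q := by exact_mod_cast hQ4
  have hℓr : (1 : ℝ) ≤ ℓ := by exact_mod_cast hℓ
  set t : ℝ := η * (Q * ℓ) with ht
  have ht0 : 0 < t := by positivity
  set M : Set (Site d → ℝ) := ⋃ k ∈ box (0 : Site d) (10 * Q),
    {V | ENNReal.ofReal (t ^ (4 * d)) ≤ (mx V N E (a + sm ℓ k) (3 * ℓ)) ^ (4 * d)} with hM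
  have hsub : ∀ k ∈ box (0 : Site d) (10 * Q), box (a + sm ℓ k) (3 * ℓ) ⊆ box 0 N := by
    intro k hk y hy
    apply ha
    rw [mem_box] at hy ⊢
    have h1 := sd_sm_le (ℓ := ℓ) (a := a) hk
    have h2 := sd_triangle a (a + sm ℓ k) y
    have h3 : 10 * Q * ℓ + 3 * ℓ ≤ 12 * (Q * ℓ) := by nlinarith
    omega
  have hincl : {V : Site d → ℝ | ¬ GoodB V N Q ℓ a E η} ⊆ M := by
    intro V hV
    by_contra hcon
    apply hV
    intro k hk y hy
    by_contra h0
    rw [not_le] at h0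
    apply hcon
    rw [hM]
    simp only [Set.mem_iUnion, exists_prop]
    refine ⟨k, hk, ?_⟩
    rw [Set.mem_ofPred_eq, ENNReal.ofReal_pow ht0.le]
    apply pow_le_pow_left₀ zero_le
    refine (ENNReal.ofReal_le_ofReal h0.le).trans ?_
    unfold mx
    exact Finset.le_sup (f := fun s => ENNReal.ofReal (DL (box 0 N) E V (a + sm ℓ k) s)) hy
  refine (measure_mono hincl).trans ?_
  apply union_le (q := (3 * C / η / Q) ^ (4 * d))
  · intro k hk
    have hms : Measurable fun V : Site d → ℝ => (mx V N E (a + sm ℓ k) (3 * ℓ)) ^ (4 * d) :=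
      (measurable_mx (hF σ E hpar N).1.meas).pow_const _
    have h1 := hU σ E hpar N (3 * ℓ) (a + sm ℓ k) (by omega) (hsub k hk)
    have h2 := meas_ge_le_lintegral_div (μ := PP d (gl σ)) hms.aemeasurable
      (ε := ENNReal.ofReal (t ^ (4 * d)))
      (by rw [Ne, ENNReal.ofReal_eq_zero, not_le]; positivity) ENNReal.ofReal_ne_top
    refine h2.trans ((ENNReal.div_le_div_right h1 _).trans (le_of_eq ?_))
    rw [← ENNReal.ofReal_div_of_pos (by positivity), ← div_pow]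
    congr 2
    rw [ht]
    push_cast
    field_simp
  · rw [card_box]
    apply mul_le_mul_of_nonneg_right _ (by positivity)
    push_cast
    apply pow_le_pow_left₀ (by positivity)
    linarith

theorem gvu (hpig : PigStmt) (hufm : UfmStmt) (huch : UchStmt) : GvuStmt := by
  intro d B η θ hd hB hη hθ
  obtain ⟨C', hC', hGB⟩ := guB (d := d) huch hufm B η hd hB hη
  obtain ⟨C, hC, hF⟩ := hufm d B hd hB
  obtain ⟨Q₀, hQ₀⟩ := exists_nat_ge (max 4 (3 * (21 ^ d * C' ^ (4 * d)) / θ))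
  have hQ₀4 : (4 : ℝ) ≤ Q₀ := (le_max_left _ _).trans hQ₀
  have hQ₀4' : 4 ≤ Q₀ := by exact_mod_cast hQ₀4
  refine ⟨Q₀, by omega, fun Q hQ => ?_⟩
  have hQ4 : 4 ≤ Q := by omega
  have hQ1 : 1 ≤ Q := by omega
  have hQr : (4 : ℝ) ≤ Q := by exact_mod_cast hQ4
  have hQ₀Q : (Q₀ : ℝ) ≤ Q := by exact_mod_cast hQ
  obtain ⟨p, hpdef⟩ : ∃ p : ℝ, p = θ / (Q : ℝ) ^ (2 * d) := ⟨_, rfl⟩
  have hp : 0 < p := by rw [hpdef]; positivity
  have hB3 : (21 * (Q : ℝ)) ^ d * (C' / Q) ^ (4 * d) ≤ p / 3 := by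
    have h1 : 3 * (21 ^ d * C' ^ (4 * d)) / θ ≤ Q := ((le_max_right _ _).trans hQ₀).trans hQ₀Q
    rw [div_le_iff₀ hθ] at h1
    have h2 : (Q : ℝ) ≤ (Q : ℝ) ^ d := by
      calc (Q : ℝ) = (Q : ℝ) ^ 1 := (pow_one _).symm
        _ ≤ (Q : ℝ) ^ d := pow_le_pow_right₀ (by linarith) hd
    have h3 : 3 * (21 ^ d * C' ^ (4 * d)) ≤ (Q : ℝ) ^ d * θ :=
      h1.trans (mul_le_mul_of_nonneg_right h2 hθ.le)
    rw [hpdef, mul_pow, div_pow, div_div, mul_div_assoc', div_le_div_iff₀ (by positivity)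
      (by positivity)]
    calc (21 : ℝ) ^ d * (Q : ℝ) ^ d * C' ^ (4 * d) * ((Q : ℝ) ^ (2 * d) * 3)
        = 3 * (21 ^ d * C' ^ (4 * d)) * ((Q : ℝ) ^ d * (Q : ℝ) ^ (2 * d)) := by ring
      _ ≤ (Q : ℝ) ^ d * θ * ((Q : ℝ) ^ d * (Q : ℝ) ^ (2 * d)) :=
        mul_le_mul_of_nonneg_right h3 (by positivity)
      _ = θ * (Q : ℝ) ^ (4 * d) := by
        rw [show 4 * d = d + d + 2 * d by ring, pow_add, pow_add]
        ring
  obtain ⟨l₁, hA⟩ := guA (d := d) hufm B η (p / 3) Q hd hB hη (by positivity) hQ1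
  set W : ℝ := (16 * (Q : ℝ) + 1) ^ d * (2 * (Q : ℝ) + 1) ^ d with hW
  have hW0 : 0 < W := by positivity
  set ε : ℝ := p / 3 * (η * Q) / W with hε
  have hε0 : 0 < ε := by positivity
  obtain ⟨J, l₂, hl₂, hP⟩ := hpig d (8 * Q) (12 * Q) C ε hC hε0 (by omega)
  refine ⟨J, max 1 (max l₁ l₂), by omega, fun ℓ₀ hℓ₀ σ E hpar => ?_⟩
  obtain ⟨N, hN⟩ := hP ℓ₀ (by omega)
  obtain ⟨j, hj, a, ha, hE⟩ := hN N le_rfl (Site d → ℝ) (PP d (gl σ)) (DL (box 0 N) E)
    (hF σ E hpar N).1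
  refine ⟨j, hj, N, a, ?_⟩
  set ℓ : ℕ := 2 ^ j * ℓ₀ with hℓ
  have hge : ℓ₀ ≤ ℓ := Nat.le_mul_of_pos_left _ (by positivity)
  have ha' : box a (12 * (Q * ℓ)) ⊆ box 0 N := by
    rw [← mul_assoc]
    exact ha
  refine ⟨ha', ?_⟩
  rw [← hpdef]
  have p1 := hA ℓ (by omega) σ E hpar N a ha'
  have p2 := (hGB Q hQ4 ℓ (by omega) σ E hpar N a ha').trans (ENNReal.ofReal_le_ofReal hB3)
  have p3 : PP d (gl σ) {V | ¬ GoodD V N Q ℓ a E η} ≤ ENNReal.ofReal (p / 3) := by
    apply gev3 hη hQ1 (by omega) (hF σ E hpar N).1 ha' hE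
    rw [← hW, hε]
    apply le_of_eq
    field_simp
  have hincl : {V : Site d → ℝ | ¬ GoodU V N Q ℓ a E η} ⊆
      {V | ¬ GuA V N Q ℓ a E η} ∪ ({V | ¬ GoodB V N Q ℓ a E η} ∪
        {V | ¬ GoodD V N Q ℓ a E η}) := by
    intro V hV
    by_contra hcon
    simp only [Set.mem_union, Set.mem_ofPred_eq, not_or, not_not] at hcon
    obtain ⟨⟨a1, a2, a3, a6⟩, a4, a5⟩ := hcon
    exact hV ⟨a1, a2, a3, a4, a5, a6⟩
  refine (measure_mono hincl).trans ?_
  refine (measure_union_le _ _).trans ?_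
  refine (add_le_add p1 ((measure_union_le _ _).trans (add_le_add p2 p3))).trans ?_
  rw [← ENNReal.ofReal_add (by positivity) (by positivity),
    ← ENNReal.ofReal_add (by positivity) (by positivity)]
  apply ENNReal.ofReal_le_ofReal
  linarith

end Pool.Agent.LE.H59C
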