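import Pool.Agent.LE.StmtsC
import Pool.Agent.Helper3_LE.ZooG

/-!
# ZOS: zero-one law at a good scale
-/

set_option autoImplicit false

open MeasureTheory ProbabilityTheory Function

open scoped ENNReal BigOperators

noncomputable section

namespace Pool.Agent.LE.H59C

open Pool.Agent.Anderson Pool.Agent.Loc Pool.Agent.Mob Pool.Agent.Helper54.Bal
  Pool.Agent.Mob.H75 Pool.Agent.LE.H3A Pool.Agent.LE.H3G

/-- ZOS -/
theorem zos (dtu : DtuStmt) : ZosStmt := by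
  intro d η K hd hη hK
  obtain ⟨L₀, hdet⟩ := dtu d η K hd hη hK
  refine ⟨L₀, fun σ E κ p N Q₁ ℓ a hσ hp hQ hℓ hL hN hP => ?_⟩
  obtain ⟨i₀, _⟩ : ∃ i : Fin d, i = ⟨0, hd⟩ := ⟨_, rfl⟩
  obtain ⟨k, hk⟩ : ∃ k : Site d, k = (Pi.single i₀ (((2 * Q₁ + 1 : ℕ) : ℤ)) : Site d) := ⟨_, rfl⟩
  have hKQ : Q₁ ≤ K * Q₁ := Nat.le_mul_of_pos_left _ hK
  have hk8 : k ∈ box (0 : Site d) (8 * (K * Q₁)) := by
    rw [mem_box, sd_le_iff]
    intro i
    rw [hk, Pi.zero_apply, zero_sub, abs_neg]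
    by_cases hi : i = i₀
    · subst hi
      rw [Pi.single_eq_same, Nat.abs_cast]
      exact_mod_cast (by omega : 2 * Q₁ + 1 ≤ 8 * (K * Q₁))
    · rw [Pi.single_eq_of_ne hi, abs_zero]
      exact Int.natCast_nonneg _
  obtain ⟨b, hb⟩ : ∃ b : Site d, b = a + sm ℓ k := ⟨_, rfl⟩
  have hab : ¬ sd a b ≤ Q₁ * ℓ + Q₁ * ℓ := by
    intro h
    have h1 := sd_le_iff.1 h i₀
    rw [hb, hk] at h1
    simp only [sm, Pi.add_apply, Pi.single_eq_same, sub_add_cancel_left, abs_neg, abs_mul,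
      Nat.abs_cast] at h1
    have h2 : ℓ * (2 * Q₁ + 1) ≤ Q₁ * ℓ + Q₁ * ℓ := by exact_mod_cast h1
    have h3 : ℓ * (2 * Q₁ + 1) = Q₁ * ℓ + Q₁ * ℓ + ℓ := by ring
    omega
  obtain ⟨S, hS⟩ : ∃ S : Set (Site d → ℝ), S = {V | SG V (Q₁ * ℓ) κ E b} := ⟨_, rfl⟩
  obtain ⟨R, hR⟩ : ∃ R : Set (Site d → ℝ), R = {V | ¬ SG V (Q₁ * ℓ) (κ - 12 * η * K) E a} :=
    ⟨_, rfl⟩
  have hSm : MeasurableSet S := by
    rw [hS]
    exact measurableSet_sg _ κ E b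
  have hRm : MeasurableSet R := by
    rw [hR]
    exact measurableSet_nsg _ _ E a
  have hdisj : Disjoint (box b (Q₁ * ℓ)) (box a (Q₁ * ℓ)) := by
    rw [Finset.disjoint_left]
    intro z hz1 hz2
    rw [mem_box] at hz1 hz2
    apply hab
    have := sd_triangle a z b
    rw [sd_comm z b] at this
    omega
  have hind : PP d (gl σ) (S ∩ R) = PP d (gl σ) S * PP d (gl σ) R := by
    refine H6.PP_inter (gl σ) hdisj hSm hRm ?_ ?_
    · intro W W' h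
      rw [hS]
      exact sg_congr h κ E
    · intro W W' h
      rw [hR]
      exact not_congr (sg_congr h _ E)
  have hsub : S ∩ R ⊆ {V | ¬ GoodU V N (K * Q₁) ℓ a E η} := by
    rintro V ⟨h1, h2⟩ g
    rw [hS] at h1
    rw [hR] at h2
    apply h2
    have h1' : SG V (Q₁ * ℓ) κ E (a + sm ℓ k) := by
      rw [← hb]
      exact h1
    exact hdet κ V N Q₁ ℓ a E hQ hℓ hL hN g k hk8 h1' a (by
      rw [mem_box, sd_self]
      exact Nat.zero_le _)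
  rw [← prob_sg σ (Q₁ * ℓ) κ E b, ← prob_nsg σ (Q₁ * ℓ) (κ - 12 * η * K) E a, ← hS, ← hR, ← hind]
  exact (measure_mono hsub).trans hP

end Pool.Agent.LE.H59C
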